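import Mathlib
import Pool.Agent.SKB.Growth
import Pool.Agent.SKB.FinRep
import Pool.Agent.SKB.Haagerup

/-!
# Powers of strongly Kreiss bounded operators on non-commutative `L^p` spaces

Full positive answer to Q1 of MP_f9ecb8_an.
-/

open scoped ENNReal NNReal

namespace Pool.Agent.Results.MP_f9ecb8_an.PowerGrowth

open Pool.Agent.SKB

universe u v

/-- `T` is strongly Kreiss bounded with constant `K`: for all `|lam| > 1` the operator `lam - T`
is invertible and `‖(lam - T)^{-n}‖ ≤ K / (|lam| - 1)^n` for all `n ≥ 1`. -/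
def StronglyKreissBounded {X : Type v} [NormedAddCommGroup X] [NormedSpace ℂ X] (K : ℝ)
    (T : X →L[ℂ] X) : Prop :=
  ∀ lam : ℂ, 1 < ‖lam‖ → ∃ R : X →L[ℂ] X,
    R * (lam • 1 - T) = 1 ∧ (lam • 1 - T) * R = 1 ∧
      ∀ n : ℕ, 1 ≤ n → ‖R ^ n‖ ≤ K / (‖lam‖ - 1) ^ n

/-- The bound of Q1 with constants `C`, `β`. -/
def PowerBound {X : Type v} [NormedAddCommGroup X] [NormedSpace ℂ X] (C β p : ℝ)
    (T : X →L[ℂ] X) : Prop :=
  ∀ n : ℕ, 1 ≤ n → ‖T ^ n‖ ≤ C * (n : ℝ) ^ |1 / 2 - 1 / p| * Real.log (n + 2) ^ β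

lemma PowerBound.mono {X : Type v} [NormedAddCommGroup X] [NormedSpace ℂ X] {C C' β β' p : ℝ}
    {T : X →L[ℂ] X} (h : PowerBound C β p T) (hC0 : 0 ≤ C) (hC : C ≤ C') (hβ : β ≤ β') :
    PowerBound C' β' p T := by
  intro n hn
  have hn1 : (1 : ℝ) ≤ n := by exact_mod_cast hn
  have hlog : 1 ≤ Real.log (n + 2) := one_le_log hn
  refine (h n hn).trans ?_
  have h1 : Real.log (n + 2) ^ β ≤ Real.log (n + 2) ^ β' := Real.rpow_le_rpow_of_exponent_le hlog hβ
  have h2 : 0 ≤ (n : ℝ) ^ |1 / 2 - 1 / p| := by positivity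
  have h3 : 0 ≤ Real.log (n + 2) ^ β := Real.rpow_nonneg (by linarith) _
  have hC'0 : 0 ≤ C' := hC0.trans hC
  gcongr

lemma kreiss_const_le {X : Type v} [NormedAddCommGroup X] [NormedSpace ℂ X] {K : ℝ}
    {R : X →L[ℂ] X} {lam : ℂ} (hlam : 1 < ‖lam‖)
    (h : ∀ n : ℕ, 1 ≤ n → ‖R ^ n‖ ≤ K / (‖lam‖ - 1) ^ n) (n : ℕ) :
    ‖R ^ n‖ ≤ max K 1 / (‖lam‖ - 1) ^ n := by
  have h0 : 0 < ‖lam‖ - 1 := by linarith
  rcases Nat.eq_zero_or_pos n with rfl | hn
  · rw [pow_zero, pow_zero, div_one]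
    exact ContinuousLinearMap.norm_id_le.trans (le_max_right _ _)
  · refine (h n hn).trans ?_
    gcongr
    exact le_max_left _ _

/-- **Powers of strongly Kreiss bounded operators on non-commutative `L^p` spaces.** -/
theorem result (p : ℝ) [hp : Fact (1 < p)] (K : ℝ) :
    ∃ C β : ℝ, 0 < C ∧ 0 < β ∧
      (∀ (M : Type u) [CStarAlgebra M] [PartialOrder M] [StarOrderedRing M] [WStarAlgebra M]
        (τ : NSFTrace M) (T : Lp τ p →L[ℂ] Lp τ p),
        StronglyKreissBounded K T → PowerBound C β p T) ∧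
      (∀ (M : Type u) [CStarAlgebra M] [PartialOrder M] [StarOrderedRing M] [WStarAlgebra M]
        (τ : NSFTrace M) (θ : ScalingFlow τ) (T : HLp τ θ p →L[ℂ] HLp τ θ p),
        StronglyKreissBounded K T → PowerBound C β p T) ∧
      (∀ (X : Type v) [NormedAddCommGroup X] [NormedSpace ℂ X] [CompleteSpace X],
        FinRepTracial.{u, v} p X → ∀ T : X →L[ℂ] X,
        StronglyKreissBounded K T → PowerBound C β p T) := by
  have main : ∀ (K : ℝ), ∃ C β : ℝ, 0 < C ∧ 0 < β ∧ ∀ (X : Type u) [NormedAddCommGroup X]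
      [NormedSpace ℂ X] [CompleteSpace X], Curved X (vt p) → ∀ T : X →L[ℂ] X,
      StronglyKreissBounded K T → PowerBound C β p T := fun K => by
    obtain ⟨C, β, hC, hβ, h⟩ := growth_of_strongKreiss.{u} (vt p) (vt_pos hp.out) (vt_le_one p)
      (max K 1) (zero_le_one.trans (le_max_right _ _))
    refine ⟨C, β, hC, hβ, fun X _ _ _ hX T hT n hn => ?_⟩
    have := h X hX T (fun lam hlam => by
      obtain ⟨R, h1, h2, h3⟩ := hT lam hlam
      exact ⟨R, h1, h2, kreiss_const_le hlam h3⟩) n hn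
    rwa [one_sub_vt_half] at this
  have main' : ∀ (K : ℝ), ∃ C β : ℝ, 0 < C ∧ 0 < β ∧ ∀ (X : Type v) [NormedAddCommGroup X]
      [NormedSpace ℂ X] [CompleteSpace X], Curved X (vt p) → ∀ T : X →L[ℂ] X,
      StronglyKreissBounded K T → PowerBound C β p T := fun K => by
    obtain ⟨C, β, hC, hβ, h⟩ := growth_of_strongKreiss.{v} (vt p) (vt_pos hp.out) (vt_le_one p)
      (max K 1) (zero_le_one.trans (le_max_right _ _))
    refine ⟨C, β, hC, hβ, fun X _ _ _ hX T hT n hn => ?_⟩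
    have := h X hX T (fun lam hlam => by
      obtain ⟨R, h1, h2, h3⟩ := hT lam hlam
      exact ⟨R, h1, h2, kreiss_const_le hlam h3⟩) n hn
    rwa [one_sub_vt_half] at this
  obtain ⟨C, β, hC, hβ, h⟩ := main K
  obtain ⟨C', β', hC', hβ', h'⟩ := main' K
  refine ⟨max C C', max β β', lt_max_of_lt_left hC, lt_max_of_lt_left hβ, ?_, ?_, ?_⟩
  · intro M _ _ _ _ τ T hT
    exact (h (Lp τ p) (curved_Lp τ p) T hT).mono hC.le (le_max_left _ _) (le_max_left _ _)
  · intro M _ _ _ _ τ θ T hT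
    exact (h (HLp τ θ p) (curved_HLp θ hp.out) T hT).mono hC.le (le_max_left _ _) (le_max_left _ _)
  · intro X _ _ _ hX T hT
    exact (h' X hX.curved T hT).mono hC'.le (le_max_right _ _) (le_max_right _ _)

end Pool.Agent.Results.MP_f9ecb8_an.PowerGrowth
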